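import Pool.Agent.T6.H9.NL.Defs

/-!
# Definitions for the average of the Nagao sums of families of complete intersection curves

Owner helper9.
-/

set_option autoImplicit false

open NumberField IsDedekindDomain

namespace Pool.Agent.T6.H9.CurveAvg

open Pool.Agent.T6.H9.TateAvg (Mon)

variable {K : Type} [Field K] [NumberField K]

/-- The polynomials in the homogeneous coordinates `x_1, ..., x_M` and in the coordinates
`t_1, ..., t_m` of the base. -/
abbrev Pol (K : Type) [Field K] [NumberField K] (M m : ℕ) : Type :=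
  MvPolynomial (Fin M ⊕ Fin m) (𝓞 K)

/-- The indices of the coefficients of a family `(h_ji)`, where `h_ji` is a form of degree
`D_j - e_i` in `x` whose coefficients are polynomials of degree at most `n` in every `t_l`. -/
abbrev Idx {τ σ : Type} (M m n : ℕ) (D : τ → ℕ) (e : σ → ℕ) : Type :=
  Σ p : τ × σ, Mon M (D p.1 - e p.2) × (Fin m → Fin (n + 1))

/-- The `j`-th equation `f_j = ∑_i h_ji g_i`, of degree `D_j` in `x`, where `h_ji` is the polynomial
with the coefficients `c(j, i, ·)`. -/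
noncomputable def member {τ σ : Type} [Fintype σ] {M m n : ℕ} {D : τ → ℕ} {e : σ → ℕ}
    (g : σ → Pol K M m) (c : Idx M m n D e → 𝓞 K) (j : τ) : Pol K M m :=
  ∑ i : σ, (∑ b : Mon M (D j - e i) × (Fin m → Fin (n + 1)),
    MvPolynomial.C (c ⟨(j, i), b⟩) * ((∏ k, MvPolynomial.X (Sum.inl k) ^ (b.1.1 k : ℕ)) *
      ∏ l, MvPolynomial.X (Sum.inr l) ^ (b.2 l : ℕ))) * g i

/-- The value at `(x, t)` modulo `v`. -/
noncomputable def value {M m : ℕ} (p : Pol K M m) (v : HeightOneSpectrum (𝓞 K))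
    (x : Fin M → 𝓞 K ⧸ v.asIdeal) (t : Fin m → 𝓞 K ⧸ v.asIdeal) : 𝓞 K ⧸ v.asIdeal :=
  MvPolynomial.eval₂Hom (Ideal.Quotient.mk v.asIdeal) (Sum.elim x t) p

/-- The number of points over the residue field at `v` of the fibre over `t` of the family of
projective varieties defined by `S`: the number of non-zero solutions `x` divided by `q - 1`. -/
noncomputable def fibrePoints {M m : ℕ} (S : Set (Pol K M m)) (v : HeightOneSpectrum (𝓞 K))
    (t : Fin m → 𝓞 K ⧸ v.asIdeal) : ℝ :=
  (Nat.card {x : Fin M → 𝓞 K ⧸ v.asIdeal // x ≠ 0 ∧ ∀ p ∈ S, value p v x t = 0} : ℝ) /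
    ((Ideal.absNorm v.asIdeal : ℝ) - 1)

/-- The points over the residue field at `v` of the base, the closed subset of the affine
`m`-space defined by the polynomials of `I`. -/
def base {m : ℕ} (I : Set (MvPolynomial (Fin m) (𝓞 K))) (v : HeightOneSpectrum (𝓞 K)) :
    Set (Fin m → 𝓞 K ⧸ v.asIdeal) :=
  {t | ∀ p ∈ I, MvPolynomial.eval₂Hom (Ideal.Quotient.mk v.asIdeal) t p = 0}

/-- The fibre average at `v` of the family of curves defined by `S`, over the base `I = 0` of
dimension `d`: `q^{-d} ∑_t (q + 1 - #X_t)`. -/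
noncomputable def fibreAverage {M m : ℕ} (I : Set (MvPolynomial (Fin m) (𝓞 K))) (d : ℕ)
    (S : Set (Pol K M m)) (v : HeightOneSpectrum (𝓞 K)) : ℝ :=
  (∑ᶠ t ∈ base I v, ((Ideal.absNorm v.asIdeal : ℝ) + 1 - fibrePoints S v t)) /
    (Ideal.absNorm v.asIdeal : ℝ) ^ d

/-- The average over the fibres of `Z` (defined by `S`) and of `B ⊆ Z` (where all `g_i` vanish):
`q^{-d} ∑_t (q + 1 - #B_t - q^{-r} (#Z_t - #B_t))`. -/
noncomputable def ambientAverage {σ : Type} {M m : ℕ} (I : Set (MvPolynomial (Fin m) (𝓞 K)))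
    (d r : ℕ) (S : Set (Pol K M m)) (g : σ → Pol K M m) (v : HeightOneSpectrum (𝓞 K)) : ℝ :=
  (∑ᶠ t ∈ base I v, ((Ideal.absNorm v.asIdeal : ℝ) + 1 - fibrePoints (S ∪ Set.range g) v t -
    (fibrePoints S v t - fibrePoints (S ∪ Set.range g) v t) /
      (Ideal.absNorm v.asIdeal : ℝ) ^ r)) / (Ideal.absNorm v.asIdeal : ℝ) ^ d

/-- The forms `∏_i (x_1 - a_i(t) x_0)` and `x_2, ..., x_(r+1)` in `r + 2` homogeneous coordinates;
their common zeros are the sections `(1 : a_i(t) : 0 : ... : 0)`. -/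
noncomputable def sectionForms {r ρ m : ℕ} (a : Fin ρ → MvPolynomial (Fin m) (𝓞 K)) :
    Option (Fin r) → Pol K (r + 2) m
  | none => ∏ i, (MvPolynomial.X (Sum.inl 1) -
      MvPolynomial.rename Sum.inr (a i) * MvPolynomial.X (Sum.inl 0))
  | some k => MvPolynomial.X (Sum.inl k.succ.succ)

/-- The degrees in `x` of these forms: `ρ` and `1, ..., 1`. -/
def sectionDegrees (r ρ : ℕ) : Option (Fin r) → ℕ
  | none => ρ
  | some _ => 1

/-- The primes of norm at most `X`. -/
def places (K : Type) [Field K] [NumberField K] (X : ℕ) : Set (HeightOneSpectrum (𝓞 K)) :=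
  {v | Ideal.absNorm v.asIdeal ≤ X}

/-- The families of coefficients whose coordinates with respect to the integral basis `ω` are
bounded by `B`. -/
def Box {ι κ : Type} [Fintype ι] (ω : Module.Basis ι ℤ (𝓞 K)) (B : κ × ι → ℕ) :
    Set (κ → 𝓞 K) :=
  {c | ∀ i j, |ω.repr (c i) j| ≤ (B (i, j) : ℤ)}

end Pool.Agent.T6.H9.CurveAvg
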