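import Pool.Agent.T6.H9.LS.Main
import Pool.Agent.T6.H9.NA.Sec

/-!
# Families of complete intersection curves in projective space

Owner helper9.
-/

set_option autoImplicit false
set_option linter.unusedSectionVars false
set_option linter.style.haveILetI false
set_option linter.unusedVariables false

open Finset NumberField IsDedekindDomain

namespace Pool.Agent.T6.H9.LS

open Pool.Agent.T6.H9.MV Pool.Agent.T6.H9.HY Pool.Agent.T6.H9.QM Pool.Agent.T6.H9.CurveAvg
open Pool.Agent.T6.H9.NL (q_sub_pos finsum_le)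

section

variable {K : Type} [Field K] [NumberField K] {m : ℕ}

lemma two_le_q (v : HeightOneSpectrum (𝓞 K)) : (2 : ℝ) ≤ qv v := by
  have h := two_le_qv v
  exact_mod_cast h

lemma card_sol_empty {M : ℕ} (v : HeightOneSpectrum (𝓞 K)) (t : Fin m → kv v) :
    ((sol (∅ : Set (Pol K M m)) v t).card : ℝ) = (qv v : ℝ) ^ M - 1 := by
  classical
  have h1 : sol (∅ : Set (Pol K M m)) v t = univ.erase 0 := by
    ext x
    simp [sol]
  rw [h1, Finset.card_erase_of_mem (Finset.mem_univ _), Finset.card_univ, Fintype.card_fun,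
    card_kv', Fintype.card_fin, Nat.cast_sub]
  · push_cast
    rfl
  · have := two_le_qv v
    exact Nat.one_le_pow _ _ (by omega)

/-- the defect of projective space -/
noncomputable def defe (r : ℕ) (v : HeightOneSpectrum (𝓞 K)) : ℝ :=
  (qv v : ℝ) + 1 - (((qv v : ℝ) ^ (r + 2) - 1) / ((qv v : ℝ) - 1)) / (qv v : ℝ) ^ r

lemma defe_le (r : ℕ) (v : HeightOneSpectrum (𝓞 K)) : |defe r v| ≤ 2 / (qv v : ℝ) := by
  have hq := q_sub_pos v
  have h2 := two_le_q v
  have hq1 : (0 : ℝ) < qv v := by linarith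
  have hr : (0 : ℝ) < (qv v : ℝ) ^ r := by positivity
  have h1 : defe r v = -(1 - 1 / (qv v : ℝ) ^ r) / ((qv v : ℝ) - 1) := by
    unfold defe
    rw [pow_add]
    field_simp
    ring
  have h3 : 0 ≤ 1 - 1 / (qv v : ℝ) ^ r := by
    rw [sub_nonneg, div_le_one hr]
    exact one_le_pow₀ (by linarith)
  have h4 : 1 - 1 / (qv v : ℝ) ^ r ≤ 1 := by
    have : 0 < 1 / (qv v : ℝ) ^ r := by positivity
    linarith
  rw [h1, abs_div, abs_neg, abs_of_nonneg h3, abs_of_pos hq, div_le_div_iff₀ hq hq1]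
  nlinarith

lemma proj_le (r : ℕ) (v : HeightOneSpectrum (𝓞 K)) :
    ((qv v : ℝ) ^ (r + 2) - 1) / ((qv v : ℝ) - 1) ≤ 2 * (qv v : ℝ) ^ (r + 1) := by
  have hq := q_sub_pos v
  have h2 := two_le_q v
  have hr : (0 : ℝ) < (qv v : ℝ) ^ (r + 1) := by positivity
  rw [div_le_iff₀ hq, pow_succ (qv v : ℝ) (r + 1)]
  nlinarith

/-- the hypothesis on the number of points -/
lemma proj_hyp {I : Set (MvPolynomial (Fin m) (𝓞 K))} {d : ℕ} {A : ℝ}
    (hI : ∀ v : HeightOneSpectrum (𝓞 K), ((base I v).ncard : ℝ) ≤ A * (qv v : ℝ) ^ d) (r : ℕ)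
    (v : HeightOneSpectrum (𝓞 K)) :
    ∑ᶠ t ∈ base I v, fibrePoints (∅ : Set (Pol K (r + 2) m)) v t ≤
      (2 * A) * (qv v : ℝ) ^ (d + r + 1) := by
  classical
  have h2 := two_le_q v
  have h0 := hI v
  rw [← bs_coe, Set.ncard_coe_finset] at h0
  rw [← bs_coe, finsum_mem_coe_finset]
  have h1 : ∀ t ∈ bs I v, fibrePoints (∅ : Set (Pol K (r + 2) m)) v t ≤
      2 * (qv v : ℝ) ^ (r + 1) := by
    intro t _
    rw [points_eq, card_sol_empty]
    exact proj_le r v
  refine (Finset.sum_le_sum h1).trans ?_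
  rw [Finset.sum_const, nsmul_eq_mul]
  refine (mul_le_mul_of_nonneg_right h0 (by positivity)).trans (le_of_eq ?_)
  rw [add_assoc, pow_add]
  ring

lemma one_range (M : ℕ) (v : HeightOneSpectrum (𝓞 K)) (t : Fin m → kv v) :
    fibrePoints (∅ ∪ Set.range fun _ : Unit => (1 : Pol K M m)) v t = 0 := by
  classical
  rw [points_eq]
  have h1 : sol (∅ ∪ Set.range fun _ : Unit => (1 : Pol K M m)) v t = ∅ := by
    rw [Finset.eq_empty_iff_forall_notMem]
    intro x hx
    have h2 := (Finset.mem_filter.1 hx).2.2 1 (Or.inr ⟨(), rfl⟩)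
    unfold value at h2
    rw [map_one] at h2
    exact one_ne_zero h2
  rw [h1, Finset.card_empty, Nat.cast_zero, zero_div]

/-- without base points -/
lemma ambient_one {I : Set (MvPolynomial (Fin m) (𝓞 K))} {d : ℕ} {A : ℝ}
    (hI : ∀ v : HeightOneSpectrum (𝓞 K), ((base I v).ncard : ℝ) ≤ A * (qv v : ℝ) ^ d) (r : ℕ)
    (v : HeightOneSpectrum (𝓞 K)) :
    |(0 : ℝ) - ambientAverage I d r (∅ : Set (Pol K (r + 2) m)) (fun _ : Unit => 1) v| ≤
      (2 * A) / (qv v : ℝ) := by
  classical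
  have h2 := two_le_q v
  have hq1 : (0 : ℝ) < qv v := by linarith
  have hqd : (0 : ℝ) < (qv v : ℝ) ^ d := by positivity
  have h0 := hI v
  rw [← bs_coe, Set.ncard_coe_finset] at h0
  have h1 : ambientAverage I d r (∅ : Set (Pol K (r + 2) m)) (fun _ : Unit => 1) v =
      ((bs I v).card : ℝ) * defe r v / (qv v : ℝ) ^ d := by
    unfold ambientAverage
    rw [← bs_coe, finsum_mem_coe_finset]
    congr 1
    rw [← nsmul_eq_mul, ← Finset.sum_const]
    refine Finset.sum_congr rfl fun t _ => ?_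
    rw [one_range, points_eq, card_sol_empty, sub_zero, sub_zero]
    rfl
  rw [h1, zero_sub, abs_neg, abs_div, abs_mul, abs_of_nonneg (Nat.cast_nonneg (bs I v).card),
    abs_of_pos hqd, div_le_iff₀ hqd]
  refine (mul_le_mul h0 (defe_le r v) (abs_nonneg _) ?_).trans (le_of_eq ?_)
  · exact le_trans (Nat.cast_nonneg _) h0
  · ring

variable {ρ : ℕ} (a : Fin ρ → MvPolynomial (Fin m) (𝓞 K))

/-- the value of a polynomial in `t` -/
noncomputable abbrev tv (v : HeightOneSpectrum (𝓞 K)) (t : Fin m → kv v)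
    (p : MvPolynomial (Fin m) (𝓞 K)) : kv v :=
  MvPolynomial.eval₂Hom (Ideal.Quotient.mk v.asIdeal) t p

lemma value_rename {M : ℕ} (p : MvPolynomial (Fin m) (𝓞 K)) (v : HeightOneSpectrum (𝓞 K))
    (x : Fin M → kv v) (t : Fin m → kv v) :
    value (MvPolynomial.rename Sum.inr p : Pol K M m) v x t = tv v t p := by
  unfold value
  rw [MvPolynomial.eval₂Hom_rename]
  rfl

lemma value_none {r : ℕ} (v : HeightOneSpectrum (𝓞 K)) (x : Fin (r + 2) → kv v)
    (t : Fin m → kv v) : value (sectionForms (r := r) a none) v x t =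
      ∏ i, (x 1 - tv v t (a i) * x 0) := by
  unfold sectionForms
  rw [value_prod]
  refine Finset.prod_congr rfl fun i _ => ?_
  rw [value_sub, value_mul, value_inl, value_inl, value_rename]

lemma value_some {r : ℕ} (k : Fin r) (v : HeightOneSpectrum (𝓞 K)) (x : Fin (r + 2) → kv v)
    (t : Fin m → kv v) : value (sectionForms (r := r) a (some k)) v x t = x k.succ.succ := by
  unfold sectionForms
  rw [value_inl]

open Classical in
/-- the values of the sections -/
noncomputable def im (v : HeightOneSpectrum (𝓞 K)) (t : Fin m → kv v) : Finset (kv v) :=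
  univ.image fun i => tv v t (a i)

lemma card_sections {r : ℕ} (v : HeightOneSpectrum (𝓞 K)) (t : Fin m → kv v) :
    (sol (∅ ∪ Set.range (sectionForms (r := r) a)) v t).card =
      (qv v - 1) * (im a v t).card := by
  classical
  have h1 : sol (∅ ∪ Set.range (sectionForms (r := r) a)) v t =
      ((univ.erase (0 : kv v)) ×ˢ im a v t).image fun p : kv v × kv v =>
        (Fin.cons p.1 (Fin.cons (p.2 * p.1) fun _ => 0) : Fin (r + 2) → kv v) := by
    ext x
    simp only [sol, Finset.mem_filter, Finset.mem_univ, true_and, Set.mem_union,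
      Set.mem_empty_iff_false, false_or, Set.mem_range, Finset.mem_image, Finset.mem_product,
      Finset.mem_erase, im, Prod.exists]
    constructor
    · rintro ⟨hx, h2⟩
      have h3 := h2 _ ⟨none, rfl⟩
      rw [value_none, Finset.prod_eq_zero_iff] at h3
      obtain ⟨i, -, hi⟩ := h3
      have h4 : ∀ k : Fin r, x k.succ.succ = 0 := by
        intro k
        have h5 := h2 _ ⟨some k, rfl⟩
        rwa [value_some] at h5
      have hx0 : x 0 ≠ 0 := by
        intro h0
        apply hx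
        rw [h0, mul_zero, sub_zero] at hi
        funext k
        refine Fin.cases h0 (fun k => ?_) k
        refine Fin.cases hi (fun k => ?_) k
        exact h4 k
      refine ⟨x 0, tv v t (a i), ⟨⟨hx0, trivial⟩, i, rfl⟩, ?_⟩
      funext k
      refine Fin.cases rfl (fun k => ?_) k
      refine Fin.cases ?_ (fun k => ?_) k
      · exact (sub_eq_zero.1 hi).symm
      · exact (h4 k).symm
    · rintro ⟨u, y, ⟨⟨hu, -⟩, i, hi⟩, rfl⟩
      refine ⟨fun h0 => hu (congrFun h0 0), ?_⟩
      rintro p ⟨o, rfl⟩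
      cases o with
      | none =>
        rw [value_none, Finset.prod_eq_zero_iff]
        refine ⟨i, Finset.mem_univ _, ?_⟩
        change y * u - tv v t (a i) * u = 0
        rw [← hi, sub_self]
      | some k =>
        rw [value_some]
        rfl
  rw [h1, Finset.card_image_of_injOn, Finset.card_product,
    Finset.card_erase_of_mem (Finset.mem_univ _), Finset.card_univ, card_kv']
  rintro ⟨u, y⟩ h2 ⟨u', y'⟩ _ h3
  have h4 : u = u' := congrFun h3 0
  have h5 : y * u = y' * u' := congrFun h3 1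
  have hu : u ≠ 0 := by
    have h6 := (Finset.mem_product.1 (Finset.mem_coe.1 h2)).1
    exact (Finset.mem_erase.1 h6).1
  subst h4
  exact Prod.ext rfl (mul_right_cancel₀ hu h5)

lemma points_sections {r : ℕ} (v : HeightOneSpectrum (𝓞 K)) (t : Fin m → kv v) :
    fibrePoints (∅ ∪ Set.range (sectionForms (r := r) a)) v t = ((im a v t).card : ℝ) := by
  have hq := q_sub_pos v
  have h2 := two_le_qv v
  rw [points_eq, card_sections]
  push_cast
  rw [Nat.cast_sub (by omega), Nat.cast_one]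
  field_simp

lemma sum_im (v : HeightOneSpectrum (𝓞 K)) :
    ∑ t : Fin m → kv v, ((im a v t).card : ℝ) =
      (NagaoAvg.zeros ∅ (∏ i, (Polynomial.X - Polynomial.C (a i))) v : ℝ) := by
  classical
  have hzero : NagaoAvg.zeros ∅ (∏ i, (Polynomial.X - Polynomial.C (a i))) v =
      ∑ t : Fin m → kv v, (im a v t).card := by
    rw [NA.zeros_empty, Nat.card_eq_fintype_card]
    have h1 : Fintype.card {p : (Fin m → kv v) × kv v //
        (NagaoAvg.spec (∏ i, (Polynomial.X - Polynomial.C (a i))) v p.1).eval p.2 = 0} =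
        Fintype.card (Σ t : Fin m → kv v, {x : kv v //
          (NagaoAvg.spec (∏ i, (Polynomial.X - Polynomial.C (a i))) v t).eval x = 0}) :=
      Fintype.card_congr ⟨fun p => ⟨p.1.1, ⟨p.1.2, p.2⟩⟩, fun s => ⟨(s.1, s.2.1), s.2.2⟩,
        fun p => rfl, fun s => rfl⟩
    rw [h1, Fintype.card_sigma]
    refine Finset.sum_congr rfl fun t _ => ?_
    rw [Fintype.card_subtype]
    congr 1
    ext x
    rw [Finset.mem_filter, NA.spec_prod, Finset.prod_eq_zero_iff, im, Finset.mem_image]
    constructor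
    · rintro ⟨-, i, hi, h⟩
      exact ⟨i, hi, (sub_eq_zero.1 h).symm⟩
    · rintro ⟨i, hi, h⟩
      exact ⟨Finset.mem_univ _, i, hi, sub_eq_zero.2 h.symm⟩
  rw [hzero]
  push_cast
  rfl

/-- with sections -/
lemma ambient_sections (ha : Function.Injective a) {r : ℕ} (hr : 1 ≤ r) : ∃ D' : ℝ, 0 ≤ D' ∧
    ∀ v : HeightOneSpectrum (𝓞 K),
    |-(ρ : ℝ) - ambientAverage ∅ m r (∅ : Set (Pol K (r + 2) m)) (sectionForms a) v| ≤
      D' / (qv v : ℝ) := by
  classical
  obtain ⟨D, hD, hz⟩ := NA.zeros_prod a ha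
  refine ⟨D + 2 + (ρ + D), by positivity, fun v => ?_⟩
  have h2 := two_le_q v
  have hq1 : (0 : ℝ) < qv v := by linarith
  have hqm : (0 : ℝ) < (qv v : ℝ) ^ m := by positivity
  have hqr : (0 : ℝ) < (qv v : ℝ) ^ r := by positivity
  set z : ℝ := (NagaoAvg.zeros ∅ (∏ i, (Polynomial.X - Polynomial.C (a i))) v : ℝ) /
    (qv v : ℝ) ^ m with hzdef
  have hz0 : 0 ≤ z := by positivity
  have h3 := hz v
  have h4 : z ≤ ρ + D := by
    have h5 := (abs_le.1 h3).1
    have h6 : D / (qv v : ℝ) ≤ D := div_le_self hD (by linarith)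
    linarith
  have hbase : (base (∅ : Set (MvPolynomial (Fin m) (𝓞 K))) v) = Set.univ := by
    ext t
    simp [base]
  have h1 : ambientAverage ∅ m r (∅ : Set (Pol K (r + 2) m)) (sectionForms a) v =
      defe r v - (1 - 1 / (qv v : ℝ) ^ r) * z := by
    unfold ambientAverage
    rw [hbase, finsum_mem_univ, finsum_eq_sum_of_fintype]
    have h5 : ∀ t : Fin m → kv v, (qv v : ℝ) + 1 -
        fibrePoints (∅ ∪ Set.range (sectionForms (r := r) a)) v t -
        (fibrePoints (∅ : Set (Pol K (r + 2) m)) v t -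
          fibrePoints (∅ ∪ Set.range (sectionForms (r := r) a)) v t) / (qv v : ℝ) ^ r =
        defe r v - (1 - 1 / (qv v : ℝ) ^ r) * ((im a v t).card : ℝ) := by
      intro t
      rw [points_sections, points_eq, card_sol_empty]
      unfold defe
      field_simp
      ring
    have h6 : ∑ t : Fin m → kv v, ((Ideal.absNorm v.asIdeal : ℝ) + 1 -
        fibrePoints (∅ ∪ Set.range (sectionForms (r := r) a)) v t -
        (fibrePoints (∅ : Set (Pol K (r + 2) m)) v t -
          fibrePoints (∅ ∪ Set.range (sectionForms (r := r) a)) v t) /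
            (Ideal.absNorm v.asIdeal : ℝ) ^ r) =
        ∑ t : Fin m → kv v, (defe r v - (1 - 1 / (qv v : ℝ) ^ r) * ((im a v t).card : ℝ)) :=
      Finset.sum_congr rfl fun t _ => h5 t
    rw [h6, Finset.sum_sub_distrib, Finset.sum_const, Finset.card_univ, Fintype.card_fun, card_kv',
      Fintype.card_fin, nsmul_eq_mul, ← Finset.mul_sum, sum_im]
    change (((qv v ^ m : ℕ) : ℝ) * defe r v - _) / (qv v : ℝ) ^ m = _
    rw [hzdef]
    push_cast
    field_simp
  have h5 : -(ρ : ℝ) - (defe r v - (1 - 1 / (qv v : ℝ) ^ r) * z) =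
      -((ρ : ℝ) - z) + -defe r v + -(z / (qv v : ℝ) ^ r) := by
    ring
  have h6 : z / (qv v : ℝ) ^ r ≤ (ρ + D) / (qv v : ℝ) := by
    have h7 : z / (qv v : ℝ) ^ r ≤ z / (qv v : ℝ) := by
      refine div_le_div_of_nonneg_left hz0 hq1 ?_
      calc (qv v : ℝ) = (qv v : ℝ) ^ 1 := (pow_one _).symm
        _ ≤ (qv v : ℝ) ^ r := pow_le_pow_right₀ (by linarith) hr
    exact h7.trans (div_le_div_of_nonneg_right h4 hq1.le)
  rw [h1, h5]
  refine (abs_add_le _ _).trans ?_
  rw [abs_neg (z / _), abs_of_nonneg (by positivity : 0 ≤ z / (qv v : ℝ) ^ r)]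
  have h7 := abs_add_le (-((ρ : ℝ) - z)) (-defe r v)
  rw [abs_neg, abs_neg] at h7
  have h8 := defe_le r v
  rw [add_div, add_div]
  linarith

end

end Pool.Agent.T6.H9.LS
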