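import Pool.Agent.T6.H9.LS.Defs
import Pool.Agent.T6.H9.NL.Loc

/-!
# Local computations for families of complete intersection curves

Owner helper9.
-/

set_option autoImplicit false
set_option linter.unusedSectionVars false
set_option linter.style.haveILetI false
set_option linter.unusedVariables false

open Finset

namespace Pool.Agent.T6.H9.LS

open Pool.Agent.T6.H9.QM Pool.Agent.T6.H9.NL Pool.Agent.T6.H9.CurveAvg
open Pool.Agent.T6.H9.TateAvg (Mon)

section mono

variable {F : Type} [Field F] {M m n : ℕ}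

/-- the indices of monomials of degree `a` in `x` and at most `n` in every `t_l` -/
abbrev Bi (M m n a : ℕ) : Type := Mon M a × (Fin m → Fin (n + 1))

/-- value of a monomial -/
def bm {a : ℕ} (x : Fin M → F) (t : Fin m → F) (b : Bi M m n a) : F :=
  mv x b.1 * ∏ l, t l ^ (b.2 l : ℕ)

/-- value of a polynomial -/
def hv {a : ℕ} (x : Fin M → F) (t : Fin m → F) (c : Bi M m n a → F) : F := ∑ b, c b * bm x t b

variable {a : ℕ} {x x' : Fin M → F} {t t' : Fin m → F}

lemma hv_zero (x : Fin M → F) (t : Fin m → F) : hv x t (0 : Bi M m n a → F) = 0 := by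
  unfold hv
  simp

lemma hv_add (x : Fin M → F) (t : Fin m → F) (c d : Bi M m n a → F) :
    hv x t (c + d) = hv x t c + hv x t d := by
  unfold hv
  rw [← Finset.sum_add_distrib]
  refine Finset.sum_congr rfl fun b _ => ?_
  rw [Pi.add_apply]
  ring

lemma hv_single (x : Fin M → F) (t : Fin m → F) (b : Bi M m n a) (α : F) :
    hv x t (Pi.single b α) = α * bm x t b := by
  classical
  unfold hv
  rw [Fintype.sum_eq_single b]
  · rw [Pi.single_eq_same]
  · intro b' hb'
    rw [Pi.single_eq_of_ne hb', zero_mul]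

lemma bm_zero (x : Fin M → F) (t : Fin m → F) (e : Mon M a) :
    bm x t ((e, fun _ => 0) : Bi M m n a) = mv x e := by
  unfold bm
  simp

lemma bm_one (hn : 1 ≤ n) (x : Fin M → F) (t : Fin m → F) (e : Mon M a) (j : Fin m) :
    bm x t ((e, Pi.single j (⟨1, by omega⟩ : Fin (n + 1))) : Bi M m n a) = mv x e * t j := by
  unfold bm
  congr 1
  change ∏ l, t l ^ ((Pi.single j (⟨1, by omega⟩ : Fin (n + 1)) : Fin m → Fin (n + 1)) l : ℕ) = t j
  rw [Fintype.prod_eq_single j]
  · rw [Pi.single_eq_same, pow_one]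
  · intro i hi
    rw [Pi.single_eq_of_ne hi, Fin.val_zero, pow_zero]

/-- a polynomial with a given value at a point -/
lemma hv_surj1 (hx : x ≠ 0) (t : Fin m → F) (α : F) : ∃ c : Bi M m n a → F, hv x t c = α := by
  obtain ⟨k, hk⟩ := Function.ne_iff.1 hx
  have hk' : x k ≠ 0 := hk
  refine ⟨Pi.single (mk1 a k, fun _ => 0) (α / x k ^ a), ?_⟩
  rw [hv_single, bm_zero, mv_mk1]
  have : x k ^ a ≠ 0 := pow_ne_zero _ hk'
  field_simp

lemma hv_det {b b' : Bi M m n a} (h : bm x t b * bm x' t' b' - bm x t b' * bm x' t' b ≠ 0)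
    (α β : F) : ∃ c : Bi M m n a → F, hv x t c = α ∧ hv x' t' c = β := by
  refine ⟨Pi.single b ((α * bm x' t' b' - β * bm x t b') /
      (bm x t b * bm x' t' b' - bm x t b' * bm x' t' b)) +
    Pi.single b' ((β * bm x t b - α * bm x' t' b) /
      (bm x t b * bm x' t' b' - bm x t b' * bm x' t' b)), ?_, ?_⟩
  · rw [hv_add, hv_single, hv_single, div_mul_eq_mul_div, div_mul_eq_mul_div, ← add_div,
      div_eq_iff h]
    ring
  · rw [hv_add, hv_single, hv_single, div_mul_eq_mul_div, div_mul_eq_mul_div, ← add_div,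
      div_eq_iff h]
    ring

lemma hv_ext (x : Fin M → F) (t : Fin m → F) (c : Mon M a → F) :
    hv x t (fun b : Bi M m n a => if b.2 = (fun _ => 0) then c b.1 else 0) = fv x c := by
  classical
  unfold hv fv
  rw [Fintype.sum_prod_type]
  refine Finset.sum_congr rfl fun e _ => ?_
  beta_reduce
  rw [Finset.sum_eq_single (fun _ => 0)]
  · rw [if_pos rfl, bm_zero]
  · intro b _ hb
    rw [if_neg hb, zero_mul]
  · intro h
    exact absurd (Finset.mem_univ _) h

/-- polynomials of positive degree separate points -/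
lemma hv_surj2 (ha : 1 ≤ a) (hn : 1 ≤ n) (hx : x ≠ 0) (hx' : x' ≠ 0)
    (hne : t ≠ t' ∨ ∀ r : F, x' ≠ r • x) (α β : F) :
    ∃ c : Bi M m n a → F, hv x t c = α ∧ hv x' t' c = β := by
  by_cases hp : ∀ r : F, x' ≠ r • x
  · obtain ⟨c, h1, h2⟩ := fv_surj2 ha hx hx' hp α β
    refine ⟨fun b : Bi M m n a => if b.2 = (fun _ => 0) then c b.1 else 0, ?_, ?_⟩
    · rw [hv_ext, h1]
    · rw [hv_ext, h2]
  · have ht : t ≠ t' := by
      rcases hne with h | h
      · exact h
      · exact absurd h hp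
    push Not at hp
    obtain ⟨r, hr⟩ := hp
    have hr0 : r ≠ 0 := by
      rintro rfl
      rw [zero_smul] at hr
      exact hx' hr
    obtain ⟨k, hk⟩ := Function.ne_iff.1 hx
    have hk' : x k ≠ 0 := hk
    have hk2 : x' k ≠ 0 := by
      rw [hr, Pi.smul_apply, smul_eq_mul]
      exact mul_ne_zero hr0 hk'
    obtain ⟨j, hj⟩ := Function.ne_iff.1 ht
    refine hv_det (b := (mk1 a k, fun _ => 0))
      (b' := (mk1 a k, Pi.single j (⟨1, by omega⟩ : Fin (n + 1)))) ?_ α β
    rw [bm_zero, bm_zero, bm_one hn, bm_one hn, mv_mk1, mv_mk1]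
    have h1 : x k ^ a * (x' k ^ a * t' j) - x k ^ a * t j * x' k ^ a =
        x k ^ a * x' k ^ a * (t' j - t j) := by ring
    rw [h1]
    exact mul_ne_zero (mul_ne_zero (pow_ne_zero _ hk') (pow_ne_zero _ hk2))
      (sub_ne_zero.2 (Ne.symm hj))

end mono

section

variable {F : Type} [Field F] [Fintype F] [DecidableEq F] {τ σ : Type} [Fintype τ]
  [DecidableEq τ] [Fintype σ] [DecidableEq σ] {M m n : ℕ} {D : τ → ℕ} {e : σ → ℕ}

/-- the values of the `f_j` at a point, given the values of the `g_i` -/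
def val (x : Fin M → F) (t : Fin m → F) (γ : σ → F) : (Idx M m n D e → F) →+ (τ → F) where
  toFun c := fun j => ∑ i, hv x t (fun b => c ⟨(j, i), b⟩) * γ i
  map_zero' := by
    funext j
    rw [Pi.zero_apply]
    refine Finset.sum_eq_zero fun i _ => ?_
    have h1 : hv x t (fun b => (0 : Idx M m n D e → F) ⟨(j, i), b⟩) = 0 := hv_zero x t
    rw [h1, zero_mul]
  map_add' c d := by
    funext j
    rw [Pi.add_apply, ← Finset.sum_add_distrib]
    refine Finset.sum_congr rfl fun i _ => ?_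
    have h1 : (fun b => (c + d) ⟨(j, i), b⟩) = (fun b => c ⟨(j, i), b⟩) + fun b => d ⟨(j, i), b⟩ :=
      rfl
    rw [h1, hv_add]
    ring

lemma val_apply (x : Fin M → F) (t : Fin m → F) (γ : σ → F) (c : Idx M m n D e → F) (j : τ) :
    val x t γ c j = ∑ i, hv x t (fun b => c ⟨(j, i), b⟩) * γ i := rfl

lemma val_block {x : Fin M → F} {t : Fin m → F} {γ : σ → F} (i : σ)
    (b : ∀ (j : τ) (i' : σ), Bi M m n (D j - e i') → F) (j : τ) :
    val x t γ (fun p : Idx M m n D e => if p.1.2 = i then b p.1.1 p.1.2 p.2 else 0) j =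
      hv x t (b j i) * γ i := by
  rw [val_apply, Finset.sum_eq_single i]
  · simp only [if_true]
  · intro i' _ hi'
    simp only [if_neg hi']
    have h1 : hv x t (fun _ : Bi M m n (D j - e i') => (0 : F)) = 0 := hv_zero x t
    rw [h1, zero_mul]
  · intro h
    exact absurd (Finset.mem_univ i) h

lemma val_surj {x : Fin M → F} (hx : x ≠ 0) (t : Fin m → F) {γ : σ → F} (hγ : ∃ i, γ i ≠ 0) :
    Function.Surjective (val x t γ : (Idx M m n D e → F) →+ (τ → F)) := by
  intro α
  obtain ⟨i, hi⟩ := hγ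
  choose b hb using fun (j : τ) (i' : σ) =>
    hv_surj1 (a := D j - e i') (n := n) hx t (α j / γ i)
  refine ⟨fun p => if p.1.2 = i then b p.1.1 p.1.2 p.2 else 0, ?_⟩
  funext j
  rw [val_block, hb]
  field_simp

lemma val2_surj (hD : ∀ j i, e i < D j) (hn : 1 ≤ n) {x x' : Fin M → F} (hx : x ≠ 0)
    (hx' : x' ≠ 0) {t t' : Fin m → F} (hne : t ≠ t' ∨ ∀ r : F, x' ≠ r • x) {γ γ' : σ → F}
    (hγ : ∃ i, γ i ≠ 0) (hγ' : ∃ i, γ' i ≠ 0) :
    Function.Surjective ((val x t γ).prod (val x' t' γ') :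
      (Idx M m n D e → F) →+ (τ → F) × (τ → F)) := by
  rintro ⟨α, β⟩
  obtain ⟨i, hi⟩ := hγ
  obtain ⟨i2, hi2⟩ := hγ'
  choose b hb hb' using fun (j : τ) (i' : σ) =>
    hv_surj2 (a := D j - e i') (by have := hD j i'; omega) hn hx hx' hne (α j / γ i) 0
  choose c hc hc' using fun (j : τ) (i' : σ) =>
    hv_surj2 (a := D j - e i') (by have := hD j i'; omega) hn hx hx' hne 0 (β j / γ' i2)
  refine ⟨(fun p : Idx M m n D e => if p.1.2 = i then b p.1.1 p.1.2 p.2 else 0) +
    fun p : Idx M m n D e => if p.1.2 = i2 then c p.1.1 p.1.2 p.2 else 0, ?_⟩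
  rw [map_add]
  refine Prod.ext ?_ ?_
  · funext j
    change val x t γ _ j + val x t γ _ j = α j
    rw [val_block, val_block, hb, hc]
    field_simp
    ring
  · funext j
    change val x' t' γ' _ j + val x' t' γ' _ j = β j
    rw [val_block, val_block, hb', hc']
    field_simp
    ring

/-- the centred indicator of zero -/
noncomputable def psi (u : τ → F) : ℝ :=
  (if u = 0 then 1 else 0) - 1 / (Fintype.card F : ℝ) ^ Fintype.card τ

lemma card_fun' : (Fintype.card (τ → F) : ℝ) = (Fintype.card F : ℝ) ^ Fintype.card τ := by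
  rw [Fintype.card_fun]
  push_cast
  rfl

lemma pw_pos : (0 : ℝ) < (Fintype.card F : ℝ) ^ Fintype.card τ := by
  have hc := NL.card_pos' (F := F)
  positivity

lemma psi_mean : rmean (psi : (τ → F) → ℝ) = 0 := by
  have hc := pw_pos (F := F) (τ := τ)
  rw [rmean_eq]
  unfold psi
  rw [Finset.sum_sub_distrib, Finset.sum_const, Finset.card_univ, nsmul_eq_mul, card_fun',
    Finset.sum_ite_eq' Finset.univ (0 : τ → F) fun _ => (1 : ℝ), if_pos (Finset.mem_univ _)]
  rw [mul_one_div_cancel hc.ne', sub_self, zero_div]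

lemma inv_pw_le : 1 / (Fintype.card F : ℝ) ^ Fintype.card τ ≤ 1 := by
  have hc := NL.card_pos' (F := F)
  rw [div_le_one pw_pos]
  exact one_le_pow₀ hc.le

lemma psi_abs (u : τ → F) : |psi u| ≤ 1 := by
  have h1 : 0 < 1 / (Fintype.card F : ℝ) ^ Fintype.card τ := one_div_pos.2 pw_pos
  have h2 := inv_pw_le (F := F) (τ := τ)
  unfold psi
  rw [abs_le]
  split_ifs
  · constructor <;> linarith
  · constructor <;> linarith

lemma psi_sq : rmean (fun u : τ → F => psi u * psi u) ≤
    1 / (Fintype.card F : ℝ) ^ Fintype.card τ := by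
  have h0 := pw_pos (F := F) (τ := τ)
  have h1 : (fun u : τ → F => psi u * psi u) = fun u : τ → F =>
      (1 - 2 / (Fintype.card F : ℝ) ^ Fintype.card τ) * psi u +
        (1 - 1 / (Fintype.card F : ℝ) ^ Fintype.card τ) *
          (1 / (Fintype.card F : ℝ) ^ Fintype.card τ) := by
    funext u
    unfold psi
    split_ifs <;> field_simp <;> ring
  rw [h1, rmean_add, rmean_const_mul, psi_mean, mul_zero, zero_add, rmean_const]
  have h2 : 0 < 1 / (Fintype.card F : ℝ) ^ Fintype.card τ := by positivity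
  nlinarith

/-- the local function; `P` is the set of the nonzero solutions `(x, t)` outside the base locus,
`γ` gives the values of the `g_i` -/
noncomputable def Wl (P : Finset ((Fin M → F) × (Fin m → F))) (d : ℕ)
    (γ : (Fin M → F) × (Fin m → F) → σ → F) (c : Idx M m n D e → F) : ℝ :=
  (1 / (((Fintype.card F : ℝ) - 1) * (Fintype.card F : ℝ) ^ d)) *
    ∑ p ∈ P, psi (val p.1 p.2 (γ p) c)

variable {P : Finset ((Fin M → F) × (Fin m → F))} {d : ℕ}
  {γ : (Fin M → F) × (Fin m → F) → σ → F}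

lemma Wl_mean (hP : ∀ p ∈ P, p.1 ≠ 0 ∧ ∃ i, γ p i ≠ 0) :
    rmean (Wl P d γ : (Idx M m n D e → F) → ℝ) = 0 := by
  unfold Wl
  rw [rmean_const_mul, pair_zero, mul_zero]
  intro p hp
  rw [marg (val p.1 p.2 (γ p)) (val_surj (hP p hp).1 p.2 (hP p hp).2) psi]
  exact psi_mean

lemma Wl_abs (c : Idx M m n D e → F) :
    |Wl P d γ c| ≤ (P.card : ℝ) / ((Fintype.card F : ℝ) - 1) / (Fintype.card F : ℝ) ^ d := by
  have hc := NL.card_pos' (F := F)
  have hq : (0 : ℝ) < (Fintype.card F : ℝ) - 1 := by linarith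
  have hq2 : (0 : ℝ) < (Fintype.card F : ℝ) ^ d := by positivity
  unfold Wl
  rw [abs_mul, abs_of_nonneg (by positivity : (0 : ℝ) ≤ 1 / (((Fintype.card F : ℝ) - 1) *
    (Fintype.card F : ℝ) ^ d))]
  have h1 := pair_abs P (fun p (c : Idx M m n D e → F) => psi (val p.1 p.2 (γ p) c))
    (fun p _ c => psi_abs _) c
  refine (mul_le_mul_of_nonneg_left h1 (by positivity)).trans (le_of_eq ?_)
  field_simp

lemma Wl_sq (hD : ∀ j i, e i < D j) (hn : 1 ≤ n) (hP : ∀ p ∈ P, p.1 ≠ 0 ∧ ∃ i, γ p i ≠ 0) :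
    rmean (fun c : Idx M m n D e → F => Wl P d γ c ^ 2) ≤
      ((P.card : ℝ) / ((Fintype.card F : ℝ) - 1)) *
        (1 / ((Fintype.card F : ℝ) ^ Fintype.card τ * ((Fintype.card F : ℝ) ^ d) ^ 2)) := by
  classical
  have hc := NL.card_pos' (F := F)
  have hq : (0 : ℝ) < (Fintype.card F : ℝ) - 1 := by linarith
  have hq2 : (0 : ℝ) < (Fintype.card F : ℝ) ^ d := by positivity
  have hτ := pw_pos (F := F) (τ := τ)
  have e1 : (fun c : Idx M m n D e → F => Wl P d γ c ^ 2) = fun c =>
      (1 / (((Fintype.card F : ℝ) - 1) * (Fintype.card F : ℝ) ^ d)) ^ 2 *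
        ∑ p ∈ P, ∑ p' ∈ P, psi (val p.1 p.2 (γ p) c) * psi (val p'.1 p'.2 (γ p') c) := by
    funext c
    unfold Wl
    rw [mul_pow, sq (∑ p ∈ P, psi (val p.1 p.2 (γ p) c)), Finset.sum_mul_sum]
  rw [e1, rmean_const_mul, rmean_sum]
  have hself : ∀ p ∈ P, rmean (fun c : Idx M m n D e → F => psi (val p.1 p.2 (γ p) c) *
      psi (val p.1 p.2 (γ p) c)) ≤ 1 / (Fintype.card F : ℝ) ^ Fintype.card τ := by
    intro p hp
    have h1 := marg (val p.1 p.2 (γ p)) (val_surj (n := n) (D := D) (e := e) (hP p hp).1 p.2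
      (hP p hp).2) (fun u => psi u * psi u)
    rw [h1]
    exact psi_sq
  have hpair : ∀ p ∈ P, ∀ p' ∈ P, rmean (fun c : Idx M m n D e → F =>
      psi (val p.1 p.2 (γ p) c) * psi (val p'.1 p'.2 (γ p') c)) ≤
        1 / (Fintype.card F : ℝ) ^ Fintype.card τ := by
    intro p hp p' hp'
    have h1 : ∀ c : Idx M m n D e → F, psi (val p.1 p.2 (γ p) c) *
        psi (val p'.1 p'.2 (γ p') c) ≤
        (1 / 2) * (psi (val p.1 p.2 (γ p) c) * psi (val p.1 p.2 (γ p) c)) +
        (1 / 2) * (psi (val p'.1 p'.2 (γ p') c) * psi (val p'.1 p'.2 (γ p') c)) := by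
      intro c
      nlinarith [sq_nonneg (psi (val p.1 p.2 (γ p) c) - psi (val p'.1 p'.2 (γ p') c))]
    have h2 : rmean (fun c : Idx M m n D e → F => psi (val p.1 p.2 (γ p) c) *
        psi (val p'.1 p'.2 (γ p') c)) ≤
        rmean (fun c : Idx M m n D e → F =>
        (1 / 2) * (psi (val p.1 p.2 (γ p) c) * psi (val p.1 p.2 (γ p) c)) +
        (1 / 2) * (psi (val p'.1 p'.2 (γ p') c) * psi (val p'.1 p'.2 (γ p') c))) := by
      rw [rmean_eq, rmean_eq]
      exact div_le_div_of_nonneg_right (Finset.sum_le_sum fun c _ => h1 c) (Nat.cast_nonneg _)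
    rw [rmean_add, rmean_const_mul, rmean_const_mul] at h2
    have h3 := hself p hp
    have h4 := hself p' hp'
    linarith
  have hrow : ∀ p ∈ P, rmean (fun c : Idx M m n D e → F =>
      ∑ p' ∈ P, psi (val p.1 p.2 (γ p) c) * psi (val p'.1 p'.2 (γ p') c)) ≤
      ((Fintype.card F : ℝ) - 1) * (1 / (Fintype.card F : ℝ) ^ Fintype.card τ) := by
    intro p hp
    rw [rmean_sum]
    -- only the multiples of `x` in the same fibre contribute
    set S : Finset ((Fin M → F) × (Fin m → F)) :=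
      P.filter fun p' => p'.2 = p.2 ∧ ∃ r : F, p'.1 = r • p.1 with hS
    have h1 : ∑ p' ∈ P, rmean (fun c : Idx M m n D e → F => psi (val p.1 p.2 (γ p) c) *
        psi (val p'.1 p'.2 (γ p') c)) = ∑ p' ∈ S, rmean (fun c : Idx M m n D e → F =>
          psi (val p.1 p.2 (γ p) c) * psi (val p'.1 p'.2 (γ p') c)) := by
      symm
      refine Finset.sum_subset (Finset.filter_subset _ _) fun p' hp' hpS => ?_
      have hxy : p.2 ≠ p'.2 ∨ ∀ r : F, p'.1 ≠ r • p.1 := by
        by_contra hcon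
        push Not at hcon
        exact hpS (Finset.mem_filter.2 ⟨hp', hcon.1.symm, hcon.2⟩)
      have h2 := indep ((val p.1 p.2 (γ p)).prod (val p'.1 p'.2 (γ p')) :
        (Idx M m n D e → F) →+ (τ → F) × (τ → F))
        (val2_surj hD hn (hP p hp).1 (hP p' hp').1 hxy (hP p hp).2 (hP p' hp').2) psi psi
      rw [psi_mean, zero_mul] at h2
      exact h2
    rw [h1]
    refine (Finset.sum_le_sum fun p' hp' => hpair p hp p' (Finset.mem_filter.1 hp').1).trans ?_
    rw [Finset.sum_const, nsmul_eq_mul]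
    refine mul_le_mul_of_nonneg_right ?_ (by positivity)
    have h3 : S ⊆ (univ.erase (0 : F)).image fun r => (r • p.1, p.2) := by
      intro p' hp'
      obtain ⟨hpP, ht, r, hr⟩ := Finset.mem_filter.1 hp'
      rw [Finset.mem_image]
      refine ⟨r, Finset.mem_erase.2 ⟨?_, Finset.mem_univ r⟩, Prod.ext hr.symm ht.symm⟩
      rintro rfl
      rw [zero_smul] at hr
      exact (hP p' hpP).1 hr
    have h4 : S.card ≤ Fintype.card F - 1 := by
      refine (Finset.card_le_card h3).trans (Finset.card_image_le.trans ?_)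
      rw [Finset.card_erase_of_mem (Finset.mem_univ _), Finset.card_univ]
    have h5 : ((Fintype.card F - 1 : ℕ) : ℝ) = (Fintype.card F : ℝ) - 1 := by
      rw [Nat.cast_sub Fintype.one_lt_card.le, Nat.cast_one]
    rw [← h5]
    exact_mod_cast h4
  refine (mul_le_mul_of_nonneg_left (Finset.sum_le_sum hrow) (sq_nonneg _)).trans (le_of_eq ?_)
  rw [Finset.sum_const, nsmul_eq_mul]
  field_simp

end

end Pool.Agent.T6.H9.LS
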