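import Pool.Agent.T6.H9.LS.Loc
import Pool.Agent.T6.H9.NL.Main
import Pool.Agent.T6.H9.NA.Main

/-!
# The average of the Nagao sums of families of complete intersection curves

Owner helper9.
-/

set_option autoImplicit false
set_option linter.unusedSectionVars false
set_option linter.style.haveILetI false
set_option linter.unusedVariables false

open Finset NumberField IsDedekindDomain

namespace Pool.Agent.T6.H9.LS

open Pool.Agent.T6.H9.MV Pool.Agent.T6.H9.HY Pool.Agent.T6.H9.QM Pool.Agent.T6.H9.CurveAvg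
open Pool.Agent.T6.H9.NL (q_sub_pos finsum_le)

section

variable {K : Type} [Field K] [NumberField K] {τ σ : Type} [Fintype τ] [DecidableEq τ]
  [Fintype σ] [DecidableEq σ] {M m n : ℕ} {D : τ → ℕ} {e : σ → ℕ}

lemma value_mul (p p' : Pol K M m) (v : HeightOneSpectrum (𝓞 K)) (x : Fin M → kv v)
    (t : Fin m → kv v) : value (p * p') v x t = value p v x t * value p' v x t := by
  unfold value
  rw [map_mul]

lemma value_sub (p p' : Pol K M m) (v : HeightOneSpectrum (𝓞 K)) (x : Fin M → kv v)
    (t : Fin m → kv v) : value (p - p') v x t = value p v x t - value p' v x t := by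
  unfold value
  rw [map_sub]

lemma value_prod {α : Type} (s : Finset α) (p : α → Pol K M m) (v : HeightOneSpectrum (𝓞 K))
    (x : Fin M → kv v) (t : Fin m → kv v) :
    value (∏ i ∈ s, p i) v x t = ∏ i ∈ s, value (p i) v x t := by
  unfold value
  rw [map_prod]

lemma value_inl (k : Fin M) (v : HeightOneSpectrum (𝓞 K)) (x : Fin M → kv v)
    (t : Fin m → kv v) : value (MvPolynomial.X (Sum.inl k) : Pol K M m) v x t = x k := by
  unfold value
  rw [MvPolynomial.coe_eval₂Hom, MvPolynomial.eval₂_X]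
  rfl

lemma value_inr (k : Fin m) (v : HeightOneSpectrum (𝓞 K)) (x : Fin M → kv v)
    (t : Fin m → kv v) : value (MvPolynomial.X (Sum.inr k) : Pol K M m) v x t = t k := by
  unfold value
  rw [MvPolynomial.coe_eval₂Hom, MvPolynomial.eval₂_X]
  rfl

lemma value_C (a : 𝓞 K) (v : HeightOneSpectrum (𝓞 K)) (x : Fin M → kv v)
    (t : Fin m → kv v) : value (MvPolynomial.C a : Pol K M m) v x t =
      Ideal.Quotient.mk v.asIdeal a := by
  unfold value
  rw [MvPolynomial.coe_eval₂Hom, MvPolynomial.eval₂_C]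

lemma value_member (g : σ → Pol K M m) (c : Idx M m n D e → 𝓞 K) (j : τ)
    (v : HeightOneSpectrum (𝓞 K)) (x : Fin M → kv v) (t : Fin m → kv v) :
    value (member g c j) v x t =
      val x t (fun i => value (g i) v x t) (redG v _ c) j := by
  have h0 : value (member g c j) v x t = ∑ i : σ, value ((∑ b : Bi M m n (D j - e i),
      MvPolynomial.C (c ⟨(j, i), b⟩) * ((∏ k, MvPolynomial.X (Sum.inl k) ^ (b.1.1 k : ℕ)) *
      ∏ l, MvPolynomial.X (Sum.inr l) ^ (b.2 l : ℕ))) * g i : Pol K M m) v x t := by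
    unfold value member
    rw [map_sum]
  rw [h0, val_apply]
  refine Finset.sum_congr rfl fun i _ => ?_
  rw [value_mul]
  congr 1
  have h1 : value (∑ b : Bi M m n (D j - e i),
      MvPolynomial.C (c ⟨(j, i), b⟩) * ((∏ k, MvPolynomial.X (Sum.inl k) ^ (b.1.1 k : ℕ)) *
      ∏ l, MvPolynomial.X (Sum.inr l) ^ (b.2 l : ℕ)) : Pol K M m) v x t =
      ∑ b : Bi M m n (D j - e i), value (MvPolynomial.C (c ⟨(j, i), b⟩) *
      ((∏ k, MvPolynomial.X (Sum.inl k) ^ (b.1.1 k : ℕ)) *
      ∏ l, MvPolynomial.X (Sum.inr l) ^ (b.2 l : ℕ)) : Pol K M m) v x t := by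
    unfold value
    rw [map_sum]
  rw [h1]
  unfold hv
  refine Finset.sum_congr rfl fun b _ => ?_
  rw [value_mul, value_mul, value_C, value_prod, value_prod]
  congr 1
  unfold bm NL.mv
  congr 1
  · refine Finset.prod_congr rfl fun k _ => ?_
    have h2 : value (MvPolynomial.X (Sum.inl k) ^ (b.1.1 k : ℕ) : Pol K M m) v x t =
        value (MvPolynomial.X (Sum.inl k) : Pol K M m) v x t ^ (b.1.1 k : ℕ) := by
      unfold value
      rw [map_pow]
    rw [h2, value_inl]
  · refine Finset.prod_congr rfl fun l _ => ?_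
    have h2 : value (MvPolynomial.X (Sum.inr l) ^ (b.2 l : ℕ) : Pol K M m) v x t =
        value (MvPolynomial.X (Sum.inr l) : Pol K M m) v x t ^ (b.2 l : ℕ) := by
      unfold value
      rw [map_pow]
    rw [h2, value_inr]

open Classical in
/-- nonzero solutions of a system in a fibre -/
noncomputable def sol (S : Set (Pol K M m)) (v : HeightOneSpectrum (𝓞 K)) (t : Fin m → kv v) :
    Finset (Fin M → kv v) := univ.filter fun x => x ≠ 0 ∧ ∀ p ∈ S, value p v x t = 0

open Classical in
/-- nonzero solutions outside the base locus -/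
noncomputable def out (S : Set (Pol K M m)) (g : σ → Pol K M m) (v : HeightOneSpectrum (𝓞 K))
    (t : Fin m → kv v) : Finset (Fin M → kv v) :=
  (sol S v t).filter fun x => ∃ i, value (g i) v x t ≠ 0

variable (S : Set (Pol K M m)) (g : σ → Pol K M m)

lemma points_eq (v : HeightOneSpectrum (𝓞 K)) (t : Fin m → kv v) :
    fibrePoints S v t = ((sol S v t).card : ℝ) / ((qv v : ℝ) - 1) := by
  classical
  unfold fibrePoints sol
  rw [Nat.card_eq_fintype_card, Fintype.card_subtype]

lemma sol_union (v : HeightOneSpectrum (𝓞 K)) (t : Fin m → kv v) :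
    (sol (S ∪ Set.range g) v t).card + (out S g v t).card = (sol S v t).card := by
  classical
  have h1 : sol (S ∪ Set.range g) v t = (sol S v t).filter
      fun x => ¬ ∃ i, value (g i) v x t ≠ 0 := by
    ext x
    simp only [sol, Finset.mem_filter, Finset.mem_univ, true_and, Set.mem_union, Set.mem_range,
      not_exists, not_not]
    constructor
    · rintro ⟨h2, h3⟩
      exact ⟨⟨h2, fun p hp => h3 p (Or.inl hp)⟩, fun i => h3 _ (Or.inr ⟨i, rfl⟩)⟩
    · rintro ⟨⟨h2, h3⟩, h4⟩
      refine ⟨h2, fun p hp => ?_⟩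
      rcases hp with hp | ⟨i, rfl⟩
      · exact h3 p hp
      · exact h4 i
  rw [h1, out, add_comm]
  exact Finset.card_filter_add_card_filter_not _

lemma sol_member (c : Idx M m n D e → 𝓞 K) (v : HeightOneSpectrum (𝓞 K)) (t : Fin m → kv v) :
    (sol (S ∪ Set.range (member g c)) v t).card = (sol (S ∪ Set.range g) v t).card +
      ((out S g v t).filter fun x =>
        val x t (fun i => value (g i) v x t) (redG v _ c) = 0).card := by
  classical
  have hz : ∀ x : Fin M → kv v, (∀ i, value (g i) v x t = 0) →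
      ∀ j, value (member g c j) v x t = 0 := by
    intro x hx j
    rw [value_member, val_apply]
    refine Finset.sum_eq_zero fun i _ => ?_
    rw [hx i, mul_zero]
  rw [← Finset.card_union_of_disjoint]
  · congr 1
    ext x
    simp only [sol, out, Finset.mem_filter, Finset.mem_univ, true_and, Set.mem_union,
      Set.mem_range, Finset.mem_union]
    constructor
    · rintro ⟨h2, h3⟩
      by_cases h4 : ∃ i, value (g i) v x t ≠ 0
      · refine Or.inr ⟨⟨⟨h2, fun p hp => h3 p (Or.inl hp)⟩, h4⟩, ?_⟩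
        funext j
        rw [← value_member]
        exact h3 _ (Or.inr ⟨j, rfl⟩)
      · push Not at h4
        refine Or.inl ⟨h2, fun p hp => ?_⟩
        rcases hp with hp | ⟨i, rfl⟩
        · exact h3 p (Or.inl hp)
        · exact h4 i
    · rintro (⟨h2, h3⟩ | ⟨⟨⟨h2, h3⟩, h4⟩, h5⟩)
      · refine ⟨h2, fun p hp => ?_⟩
        rcases hp with hp | ⟨j, rfl⟩
        · exact h3 p (Or.inl hp)
        · exact hz x (fun i => h3 _ (Or.inr ⟨i, rfl⟩)) j
      · refine ⟨h2, fun p hp => ?_⟩
        rcases hp with hp | ⟨j, rfl⟩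
        · exact h3 p hp
        · rw [value_member, h5]
          rfl
  · rw [Finset.disjoint_left]
    intro x hx hx'
    simp only [sol, out, Finset.mem_filter, Finset.mem_univ, true_and, Set.mem_union,
      Set.mem_range] at hx hx'
    obtain ⟨i, hi⟩ := hx'.1.2
    exact hi (hx.2 _ (Or.inr ⟨i, rfl⟩))

open Classical in
/-- the points of the base as a finset -/
noncomputable def bs (I : Set (MvPolynomial (Fin m) (𝓞 K))) (v : HeightOneSpectrum (𝓞 K)) :
    Finset (Fin m → kv v) := univ.filter fun t => t ∈ base I v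

variable (I : Set (MvPolynomial (Fin m) (𝓞 K))) (d : ℕ)

lemma bs_coe (v : HeightOneSpectrum (𝓞 K)) : (bs I v : Set (Fin m → kv v)) = base I v := by
  ext t
  unfold bs
  simp

open Classical in
/-- the nonzero solutions outside the base locus in all fibres -/
noncomputable def pts (v : HeightOneSpectrum (𝓞 K)) : Finset ((Fin M → kv v) × (Fin m → kv v)) :=
  ((univ : Finset (Fin M → kv v)) ×ˢ bs I v).filter fun p => p.1 ∈ out S g v p.2

lemma sum_pts (v : HeightOneSpectrum (𝓞 K)) (φ : (Fin M → kv v) × (Fin m → kv v) → ℝ) :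
    ∑ p ∈ pts S g I v, φ p = ∑ t ∈ bs I v, ∑ x ∈ out S g v t, φ (x, t) := by
  classical
  unfold pts
  rw [Finset.sum_filter, Finset.sum_product_right]
  refine Finset.sum_congr rfl fun t _ => ?_
  rw [← Finset.sum_filter]
  refine Finset.sum_congr ?_ fun _ _ => rfl
  ext x
  simp

lemma card_pts (v : HeightOneSpectrum (𝓞 K)) :
    ((pts S g I v).card : ℝ) = ∑ t ∈ bs I v, ((out S g v t).card : ℝ) := by
  have h := sum_pts S g I v (fun _ => (1 : ℝ))
  simpa using h

lemma pts_spec (v : HeightOneSpectrum (𝓞 K)) : ∀ p ∈ pts S g I v,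
    p.1 ≠ 0 ∧ ∃ i, value (g i) v p.1 p.2 ≠ 0 := by
  classical
  intro p hp
  have h1 : p.1 ∈ out S g v p.2 := (Finset.mem_filter.1 hp).2
  have h2 := Finset.mem_filter.1 h1
  exact ⟨(Finset.mem_filter.1 h2.1).2.1, h2.2⟩

/-- the local function is the deviation of the fibre average -/
lemma diff_eq (c : Idx M m n D e → 𝓞 K) (v : HeightOneSpectrum (𝓞 K)) :
    fibreAverage I d (S ∪ Set.range (member g c)) v -
      ambientAverage I d (Fintype.card τ) S g v =
      -Wl (pts S g I v) d (fun p i => value (g i) v p.1 p.2) (redG v _ c) := by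
  classical
  have hq := q_sub_pos v
  have hq1 : (0 : ℝ) < qv v := by linarith
  have hqd : (0 : ℝ) < (qv v : ℝ) ^ d := by positivity
  have hqr : (0 : ℝ) < (qv v : ℝ) ^ Fintype.card τ := by positivity
  unfold fibreAverage ambientAverage Wl
  rw [← bs_coe, finsum_mem_coe_finset, finsum_mem_coe_finset, ← sub_div,
    ← Finset.sum_sub_distrib, sum_pts, card_kv']
  have h1 : ∀ t ∈ bs I v, ((qv v : ℝ) + 1 - fibrePoints (S ∪ Set.range (member g c)) v t -
      ((qv v : ℝ) + 1 - fibrePoints (S ∪ Set.range g) v t -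
        (fibrePoints S v t - fibrePoints (S ∪ Set.range g) v t) /
          (qv v : ℝ) ^ Fintype.card τ)) = -(1 / ((qv v : ℝ) - 1)) *
      ∑ x ∈ out S g v t, psi (val x t (fun i => value (g i) v x t) (redG v _ c)) := by
    intro t _
    rw [points_eq, points_eq, points_eq, sol_member, ← sol_union S g v t]
    unfold psi
    rw [Finset.sum_sub_distrib, Finset.sum_const, nsmul_eq_mul, card_kv', Finset.sum_boole]
    push_cast
    field_simp
    ring
  have h2 : ∑ t ∈ bs I v, ((Ideal.absNorm v.asIdeal : ℝ) + 1 -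
      fibrePoints (S ∪ Set.range (member g c)) v t -
      ((Ideal.absNorm v.asIdeal : ℝ) + 1 - fibrePoints (S ∪ Set.range g) v t -
        (fibrePoints S v t - fibrePoints (S ∪ Set.range g) v t) /
          (Ideal.absNorm v.asIdeal : ℝ) ^ Fintype.card τ)) =
      ∑ t ∈ bs I v, -(1 / ((qv v : ℝ) - 1)) *
      ∑ x ∈ out S g v t, psi (val x t (fun i => value (g i) v x t) (redG v _ c)) :=
    Finset.sum_congr rfl h1
  rw [h2, ← Finset.mul_sum]
  change -(1 / ((qv v : ℝ) - 1)) * _ / (qv v : ℝ) ^ d = _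
  field_simp

variable {A : ℝ} (hA : ∀ v : HeightOneSpectrum (𝓞 K),
  ∑ᶠ t ∈ base I v, fibrePoints S v t ≤ A * (qv v : ℝ) ^ (d + Fintype.card τ + 1))

include hA in
lemma pts_card (v : HeightOneSpectrum (𝓞 K)) :
    ((pts S g I v).card : ℝ) / ((qv v : ℝ) - 1) ≤
      A * (qv v : ℝ) ^ (d + Fintype.card τ + 1) := by
  classical
  refine le_trans ?_ (hA v)
  rw [← bs_coe, finsum_mem_coe_finset, card_pts, Finset.sum_div]
  refine Finset.sum_le_sum fun t _ => ?_
  rw [points_eq, ← sol_union S g v t]
  refine div_le_div_of_nonneg_right ?_ (q_sub_pos v).le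
  push_cast
  have : (0 : ℝ) ≤ ((sol (S ∪ Set.range g) v t).card : ℝ) := Nat.cast_nonneg _
  linarith

variable {ι : Type} [Fintype ι]

include hA in
/-- **The almost-all theorem for the Nagao sums of families of complete intersection curves**,
with a comparison term. -/
theorem main (ω : Module.Basis ι ℤ (𝓞 K)) (hA0 : 0 ≤ A) (hD : ∀ j i, e i < D j) (hn : 1 ≤ n)
    {δ : ℝ} (hδ : 0 < δ) (z : HeightOneSpectrum (𝓞 K) → ℝ) {D' : ℝ} (hD' : 0 ≤ D')
    (hz : ∀ v, |z v - ambientAverage I d (Fintype.card τ) S g v| ≤ D' / (qv v : ℝ)) :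
    ∃ L : ℝ, 0 < L ∧ ∀ (N : ℕ) (B : Idx M m n D e × ι → ℕ), (∀ j, N ≤ B j) →
      ∀ X₀ : ℝ, 1 ≤ X₀ →
      ({c : Idx M m n D e → 𝓞 K | c ∈ Box ω B ∧ ∃ X : ℕ, X₀ ≤ X ∧
        X ^ (2 * Fintype.card τ + 6) ≤ N ∧
        (X : ℝ) ^ (max 0 (1 - (d : ℝ) / 2) + δ) < |∑ᶠ v ∈ places K X,
          (fibreAverage I d (S ∪ Set.range (member g c)) v - z v) *
            Real.log (Ideal.absNorm v.asIdeal)|}.ncard : ℝ) ≤
        L * X₀ ^ (-δ) * ((Box ω B : Set (Idx M m n D e → 𝓞 K)).ncard : ℝ) := by
  classical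
  obtain ⟨C1, hC10, hC1⟩ := sum_log_div (K := K) (ε := δ / 2) (by positivity)
  obtain ⟨C, hC0, hC⟩ := almost_all_set (κ := Idx M m n D e) (C' := D' * C1) ω
    (NA.ex_nonneg d) (by positivity : (0 : ℝ) ≤ (Fintype.card τ : ℝ) + 1) hA0 hA0 hδ
    (fun v a => -Wl (pts S g I v) d (fun p i => value (g i) v p.1 p.2) a)
    (fun v => by
      have h1 := rmean_const_mul (-1)
        (Wl (pts S g I v) d (fun p i => value (g i) v p.1 p.2) : (Idx M m n D e → kv v) → ℝ)
      simp only [neg_mul, one_mul] at h1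
      rw [h1, Wl_mean (pts_spec S g I v), neg_zero])
    (fun v => by
      have hq := q_sub_pos v
      have hq1 : (0 : ℝ) < qv v := by linarith
      have hq1' : (1 : ℝ) ≤ qv v := one_le_qvR v
      simp only [neg_sq]
      refine (Wl_sq hD hn (pts_spec S g I v)).trans ?_
      rw [card_kv']
      refine (mul_le_mul_of_nonneg_right (pts_card (τ := τ) S g I d hA v) (by positivity)).trans ?_
      have h1 : A * (qv v : ℝ) ^ (d + Fintype.card τ + 1) *
          (1 / ((qv v : ℝ) ^ Fintype.card τ * ((qv v : ℝ) ^ d) ^ 2)) =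
          A * (qv v : ℝ) ^ (1 - (d : ℝ)) := by
        rw [Real.rpow_sub hq1, Real.rpow_one, Real.rpow_natCast, pow_succ, pow_add]
        field_simp
      rw [h1]
      refine mul_le_mul_of_nonneg_left ?_ hA0
      refine Real.rpow_le_rpow_of_exponent_le hq1' ?_
      have h2 : 1 - (d : ℝ) / 2 ≤ NA.ex d := le_max_right _ _
      linarith)
    (fun v a => by
      have hq := q_sub_pos v
      have hq1 : (0 : ℝ) < qv v := by linarith
      have hqd : (0 : ℝ) < (qv v : ℝ) ^ d := by positivity
      rw [abs_neg]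
      refine (Wl_abs (P := pts S g I v) a).trans ?_
      rw [card_kv']
      have h1 := pts_card (τ := τ) S g I d hA v
      refine (div_le_div_of_nonneg_right h1 hqd.le).trans (le_of_eq ?_)
      have h2 : (Fintype.card τ : ℝ) + 1 = ((Fintype.card τ + 1 : ℕ) : ℝ) := by push_cast; ring
      rw [h2, Real.rpow_natCast, add_assoc, pow_add]
      field_simp)
    (fun c X => ∑ᶠ v ∈ places K X,
      (fibreAverage I d (S ∪ Set.range (member g c)) v - z v) *
        Real.log (Ideal.absNorm v.asIdeal))
    (fun c X hX => by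
      have hpl : ∑ᶠ v ∈ places K X,
          (fibreAverage I d (S ∪ Set.range (member g c)) v - z v) *
            Real.log (Ideal.absNorm v.asIdeal) = ∑ v ∈ plE K X,
          (fibreAverage I d (S ∪ Set.range (member g c)) v - z v) *
            Real.log (Ideal.absNorm v.asIdeal) := finsum_le X _
      rw [hpl, ← Finset.sum_sub_distrib]
      have h1 : ∀ v ∈ plE K X, |(fibreAverage I d (S ∪ Set.range (member g c)) v - z v) *
            Real.log (Ideal.absNorm v.asIdeal) - Real.log (qv v) *
            -Wl (pts S g I v) d (fun p i => value (g i) v p.1 p.2) (redG v _ c)| ≤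
          D' * (Real.log (qv v) / (qv v : ℝ)) := by
        intro v _
        have hq1 := one_le_qvR v
        have hl : 0 ≤ Real.log (qv v) := Real.log_nonneg hq1
        rw [← diff_eq S g I d c v]
        change |(fibreAverage I d (S ∪ Set.range (member g c)) v - z v) *
            Real.log (qv v) - Real.log (qv v) *
            (fibreAverage I d (S ∪ Set.range (member g c)) v -
              ambientAverage I d (Fintype.card τ) S g v)| ≤ _
        have h2 : (fibreAverage I d (S ∪ Set.range (member g c)) v - z v) *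
            Real.log (qv v) - Real.log (qv v) *
            (fibreAverage I d (S ∪ Set.range (member g c)) v -
              ambientAverage I d (Fintype.card τ) S g v) =
            -(z v - ambientAverage I d (Fintype.card τ) S g v) * Real.log (qv v) := by ring
        rw [h2, abs_mul, abs_neg, abs_of_nonneg hl]
        refine (mul_le_mul_of_nonneg_right (hz v) hl).trans (le_of_eq ?_)
        ring
      refine (Finset.abs_sum_le_sum_abs _ _).trans ((Finset.sum_le_sum h1).trans ?_)
      rw [← Finset.mul_sum, mul_assoc]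
      refine mul_le_mul_of_nonneg_left ((hC1 X).trans ?_) hD'
      refine mul_le_mul_of_nonneg_left ?_ hC10
      refine Real.rpow_le_rpow_of_exponent_le (by exact_mod_cast hX) ?_
      have := NA.ex_nonneg d
      linarith)
  refine ⟨C, hC0, fun N B hB X₀ hX₀ => ?_⟩
  have h1 := hC N B hB X₀ hX₀
  refine le_trans (le_of_eq ?_) h1
  congr 2
  ext c
  have h2 : ∀ X : ℕ, ((X : ℝ) ^ (2 * ((Fintype.card τ : ℝ) + 1) + 4) ≤ N ↔
      X ^ (2 * Fintype.card τ + 6) ≤ N) := by
    intro X
    have h3 : (2 * ((Fintype.card τ : ℝ) + 1) + 4) = ((2 * Fintype.card τ + 6 : ℕ) : ℝ) := by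
      push_cast
      ring
    rw [h3, Real.rpow_natCast]
    exact_mod_cast Iff.rfl
  simp only [h2]
  rfl

end

end Pool.Agent.T6.H9.LS
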